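import Pool.Agent.H30.FA.TA

/-!
# The features (FTR)
-/

set_option autoImplicit false

open Pool.Agent.H30.FA

namespace Pool.Agent.H13.FA

theorem ft_apply {A : ℕ} (D : ℕ) (z : Fin A → ℂ) (p : FI A D) :
    ft D z p = ∏ l, (z (p.2 l).1 * (starRingEnd ℂ) (z (p.2 l).2)) := rfl

theorem sum_level (A D : ℕ) (z w : Fin A → ℂ) (j : Fin (D + 1)) :
    ∑ q : Fin (j : ℕ) → Fin A × Fin A,
    (starRingEnd ℂ) (ft D z ⟨j, q⟩) * ft D w ⟨j, q⟩ =
      ((‖∑ a, (starRingEnd ℂ) (z a) * w a‖ ^ (2 * (j : ℕ)) : ℝ) : ℂ) := by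
  have h1 : ∑ p : Fin A × Fin A, ((starRingEnd ℂ) (z p.1 * (starRingEnd ℂ) (z p.2)) *
      (w p.1 * (starRingEnd ℂ) (w p.2))) =
      ((‖∑ a, (starRingEnd ℂ) (z a) * w a‖ ^ 2 : ℝ) : ℂ) := by
    have h2 : ((‖∑ a, (starRingEnd ℂ) (z a) * w a‖ ^ 2 : ℝ) : ℂ) =
        (∑ a, (starRingEnd ℂ) (z a) * w a) *
          (starRingEnd ℂ) (∑ a, (starRingEnd ℂ) (z a) * w a) := by
      rw [Complex.mul_conj, Complex.normSq_eq_norm_sq]
    rw [h2, map_sum, Finset.sum_mul_sum, Fintype.sum_prod_type]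
    refine Finset.sum_congr rfl fun a _ => Finset.sum_congr rfl fun b _ => ?_
    simp only [map_mul, Complex.conj_conj]
    ring
  have h3 : ∀ q : Fin (j : ℕ) → Fin A × Fin A,
      (starRingEnd ℂ) (ft D z ⟨j, q⟩) * ft D w ⟨j, q⟩ =
      ∏ l, ((starRingEnd ℂ) (z (q l).1 * (starRingEnd ℂ) (z (q l).2)) *
        (w (q l).1 * (starRingEnd ℂ) (w (q l).2))) := by
    intro q
    rw [ft_apply, ft_apply, map_prod, ← Finset.prod_mul_distrib]
  rw [Finset.sum_congr rfl fun q _ => h3 q]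
  have h4 := Fintype.sum_pow (fun p : Fin A × Fin A =>
    ((starRingEnd ℂ) (z p.1 * (starRingEnd ℂ) (z p.2)) *
      (w p.1 * (starRingEnd ℂ) (w p.2)))) (j : ℕ)
  rw [← h4, h1, pow_mul]
  push_cast
  rfl

theorem inner_ft (A D : ℕ) (z w : Fin A → ℂ) :
    inner ℂ (ft D z) (ft D w) = ((∑ j ∈ Finset.range (D + 1),
      ‖∑ a, (starRingEnd ℂ) (z a) * w a‖ ^ (2 * j) : ℝ) : ℂ) := by
  have h1 : inner ℂ (ft D z) (ft D w) =
      ∑ p : FI A D, (starRingEnd ℂ) (ft D z p) * ft D w p := by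
    rw [PiLp.inner_apply]
    refine Finset.sum_congr rfl fun p _ => ?_
    rw [RCLike.inner_apply, mul_comm]
  rw [h1, Fintype.sum_sigma, Finset.sum_congr rfl fun j _ => sum_level A D z w j,
    Complex.ofReal_sum]
  exact Fin.sum_univ_eq_sum_range (fun j : ℕ =>
    ((‖∑ a, (starRingEnd ℂ) (z a) * w a‖ ^ (2 * j) : ℝ) : ℂ)) (D + 1)

theorem pf_FTR : T_FTR := by
  intro A D z w
  refine ⟨inner_ft A D z w, fun hz => ?_, fun c hc => ?_, fun j => sum_level A D z w j⟩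
  · have h2 : ‖ft D z‖ ^ 2 = ∑ j ∈ Finset.range (D + 1),
        ‖∑ a, (starRingEnd ℂ) (z a) * z a‖ ^ (2 * j) := by
      rw [← inner_self_eq_norm_sq (𝕜 := ℂ) (ft D z), inner_ft]
      exact Complex.ofReal_re _
    rw [h2]
    have h3 : ‖∑ a, (starRingEnd ℂ) (z a) * z a‖ ≤ 1 := by
      have h4 : ∑ a, (starRingEnd ℂ) (z a) * z a = ((∑ a, ‖z a‖ ^ 2 : ℝ) : ℂ) := by
        rw [Complex.ofReal_sum]
        refine Finset.sum_congr rfl fun a _ => ?_
        rw [mul_comm, Complex.mul_conj, Complex.normSq_eq_norm_sq]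
      rw [h4, Complex.norm_real, Real.norm_of_nonneg (Finset.sum_nonneg fun a _ => sq_nonneg _)]
      exact hz
    calc ∑ j ∈ Finset.range (D + 1), ‖∑ a, (starRingEnd ℂ) (z a) * z a‖ ^ (2 * j)
        ≤ ∑ j ∈ Finset.range (D + 1), (1 : ℝ) :=
          Finset.sum_le_sum fun j _ => pow_le_one₀ (norm_nonneg _) h3
      _ = D + 1 := by
          rw [Finset.sum_const, Finset.card_range, nsmul_eq_mul, mul_one]
          push_cast
          rfl
  · have hcc : c * (starRingEnd ℂ) c = 1 := by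
      rw [Complex.mul_conj, Complex.normSq_eq_norm_sq, hc]
      norm_num
    ext p
    rw [ft_apply, ft_apply]
    refine Finset.prod_congr rfl fun l _ => ?_
    rw [Pi.smul_apply, Pi.smul_apply, smul_eq_mul, smul_eq_mul, map_mul]
    calc c * z (p.snd l).1 * ((starRingEnd ℂ) c * (starRingEnd ℂ) (z (p.snd l).2))
        = (c * (starRingEnd ℂ) c) * (z (p.snd l).1 * (starRingEnd ℂ) (z (p.snd l).2)) := by
          ring
      _ = _ := by rw [hcc, one_mul]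

end Pool.Agent.H13.FA
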